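import Mathlib
import Pool.Agent.H491.Lin
import Pool.Agent.H491.Conv

set_option autoImplicit false

/-!
# Multiple zeta values of distinct weights are often linearly independent

There are `2 ^ (k - 2)` multiple zeta values of weight `k`. Q1 says that the sum of the spaces `Z_k` is direct; then
nonzero elements of `Z_{k_1}, …, Z_{k_r}`, for distinct weights `k_i ≥ 1`, are linearly independent, also together with
`1`. We show this, without any assumption, for a large part of the multiple zeta values themselves, and over the field of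
all real algebraic numbers in place of `ℚ`. There is an `m ≥ 1` such that for all `r` and all distinct weights
`k_1, …, k_r ≥ 2 m r + 2` the numbers `1, ζ(w_1), …, ζ(w_r)` are linearly independent over the real algebraic numbers for
at least `∏ 2 ^ (k_i - 2 m r - 2) / binom(k_i, 2 m r)` of the tuples `(w_1, …, w_r)` of indices of the weights
`k_1, …, k_r`. For a fixed `r` this is at least the part `c ∏ k_i ^ (-C)` of all tuples, for `r = 1` at least
`c 2 ^ k / k ^ C` multiple zeta values of weight `k` are transcendental, and the bound is still exponentially large if `r`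
is at most a small multiple of the smallest weight.

Proof. If all quotients `ζ(w) / π ^ |w|` are algebraic, everything follows from the transcendence of `π`. Otherwise
`θ = (ζ(v) / π ^ |v|) ^ 2` is transcendental for some `v`, and we take `m = |v|`. The numbers
`z_i = ζ(v) ^ (2 i) ζ(2 m (e - i))`, `0 ≤ i ≤ e`, have the same weight and are linearly independent over the real algebraic
numbers. So for no index `u` of weight `k - 2 m e` a space `E` of dimension `e` contains all the `ζ(u) z_i`. By the stuffle
product `ζ(u) z_i` is a sum of multiple zeta values of weight `k` with indices from which one gets `u` by taking away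
`2 m e` units, and an index of weight `k` gives at most `binom(k, 2 m e)` indices `u` in this way. So `E` misses at least
`2 ^ (k - 2 m e - 2) / binom(k, 2 m e)` of the multiple zeta values of weight `k`, and the tuples can be chosen one entry
after the other.
-/

namespace Pool.Agent.Results.MP_4d52ff_nt.DistinctWeights

/-- the field of the real algebraic numbers -/
noncomputable abbrev RealAlg : IntermediateField ℚ ℝ := algebraicClosure ℚ ℝ

/-- the indices `(k_1, …, k_t)` of weight `k` with `k_i ≥ 1` and `k_1 ≥ 2` (the empty index for `k = 0`) -/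
def Index (k : ℕ) : Set (List ℕ) := {s | (∀ a ∈ s, 1 ≤ a) ∧ (∀ a ∈ s.head?, 2 ≤ a) ∧ s.sum = k}

/-- the multiple zeta value `ζ(k_1, …, k_t) = ∑_{n_1 > ⋯ > n_t ≥ 1} n_1 ^ (-k_1) ⋯ n_t ^ (-k_t)` -/
noncomputable def zeta (s : List ℕ) : ℝ :=
  ∑' n : {n : Fin s.length → ℕ // StrictAnti n ∧ ∀ i, 1 ≤ n i}, ∏ i, (((n.1 i : ℕ) : ℝ) ^ s.get i)⁻¹

open Pool.Agent.H447R2.MZ Pool.Agent.H491

theorem index_iff (k : ℕ) (s : List ℕ) : s ∈ Index k ↔ Adm s ∧ s.sum = k := by
  constructor
  · rintro ⟨h1, h2, h3⟩
    refine ⟨⟨h1, fun a t e => h2 a ?_⟩, h3⟩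
    rw [e]
    rfl
  · rintro ⟨⟨h1, h2⟩, h3⟩
    refine ⟨h1, fun a ha => ?_, h3⟩
    rcases s with _ | ⟨b, t⟩
    · simp at ha
    · simp only [List.head?_cons, Option.mem_def, Option.some.injEq] at ha
      subst ha
      exact h2 b t rfl

theorem zeta_eq (s : List ℕ) (hs : Adm s) : zeta s = val s := (Hit.val_eq_tsum_anti s hs).symm

theorem result : ∃ m : ℕ, 1 ≤ m ∧ ∀ (r : ℕ) (k : Fin r → ℕ), Function.Injective k → (∀ i, 2 * (m * r) + 2 ≤ k i) →
    ∏ i, ((2 : ℝ) ^ (k i - 2 * (m * r) - 2) / ((k i).choose (2 * (m * r)) : ℝ)) ≤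
      ({w : Fin r → List ℕ | (∀ i, w i ∈ Index (k i)) ∧
        LinearIndependent RealAlg (Fin.cons 1 (fun i => zeta (w i)) : Fin (r + 1) → ℝ)}.ncard : ℝ) := by
  obtain ⟨m, hm, h⟩ := Hit.card_G2
  refine ⟨m, hm, fun r k hinj hk => (h r k hinj hk).trans_eq ?_⟩
  have e : {w : Fin r → List ℕ | (∀ i, w i ∈ Index (k i)) ∧
      LinearIndependent RealAlg (Fin.cons 1 (fun i => zeta (w i)) : Fin (r + 1) → ℝ)} = ↑(Hit.G k) := by
    ext w
    rw [Finset.mem_coe, Hit.mem_G, Set.mem_ofPred_eq]
    have h1 : (∀ i, w i ∈ Index (k i)) ↔ ∀ i, Adm (w i) ∧ (w i).sum = k i :=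
      forall_congr' fun i => index_iff (k i) (w i)
    rw [h1]
    refine and_congr_right fun h2 => ?_
    have h3 : (Fin.cons 1 (fun i => zeta (w i)) : Fin (r + 1) → ℝ) = Hit.fam w := by
      rw [Hit.fam]
      congr 1
      funext i
      exact zeta_eq _ (h2 i).1
    rw [h3]
  rw [e, Set.ncard_coe_finset]

end Pool.Agent.Results.MP_4d52ff_nt.DistinctWeights
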