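import Mathlib
import Pool.Agent.H491.Box7

set_option autoImplicit false

/-!
# At least `1 / D!` of the multiple zeta values of depth `D` are transcendental, for every number of odd arguments

The question asks in particular whether multiple zeta values of different weights, the number `1` included, can be linearly
dependent over `ℚ`. Let `L` be a subfield of `ℝ` over which `π` is transcendental, for example the field of the real
algebraic numbers, and let `E` be a subspace of `ℝ` of dimension at most `r` over `L` (for example `E = L`, or the space
spanned over `L` by `r` given numbers).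

Theorem. Let `D ≥ 2` and `0 ≤ q ≤ D`. Of the indices `(k_1, …, k_D)` with `2 ≤ k_i ≤ 2 n + 1` and exactly `q` odd entries at
least the proportion `(1 - C ((r + 1) / n) ^ η) / D!` has a value `ζ(k_1, …, k_D)` outside of `E`. The constants `C` and
`η > 0` depend only on `D` and `q`.

So asymptotically at least `1 / D!` of the multiple zeta values of depth `D` (with entries at least two) are transcendental,
also if all arguments are odd or if the weight is odd, and they avoid every space of dimension `o(n)`. In fact almost every
set of arguments `{k_1, …, k_D}` has an ordering with a value outside of `E`.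

Proof. Let `S(a_1, …, a_D)` be the sum of the values of all orderings, extended linearly to polynomials `f_i` in place of
the powers `X ^ (a_i)`, and let `p` be the linear functional `X ^ a ↦ ζ(a)`. Suppose that `S` is in `E` for all exponents
chosen from given sets `K_1, …, K_(D-2), {a, a'}, B`. Choose polynomials `f_i ≠ 0` with exponents in `K_i` such that `p`
vanishes at all products of some of them, times `1`, `X ^ a` or `X ^ a'`; this is possible if the sets `K_i` have
`w = 2 ^ (D + 1)` elements. By the stuffle product `S(f_1, …, f_(D-2), X ^ a, X ^ b)` is up to sign
`(D-2)! ζ(a) p(X ^ b ∏ f_i) - (D-1)! p(X ^ (a + b) ∏ f_i)`. One of the two terms contains only zeta values at even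
integers, and a linear combination for `a` and `a'` eliminates the other one (if the weight is odd, one uses pairs of
exponents with a fixed sum). So `p(X ^ b W)` is in a space of dimension `O(r)` for all `b ∈ B`, with a fixed polynomial
`W ≠ 0`, and all the zeta values in it are at even integers, rational multiples of powers of `π ^ 2`. If `B` had more than
`O(r)` elements there would be several linear relations between the `p(X ^ b W)` with different leading terms, and the
leading coefficient of their determinant is a minor of the matrix `ζ(2 (i + j)) / π ^ (2 (i + j))`, which is nonzero by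
Descartes' rule of signs. So the set of the bad index sets contains no complete `D`-partite pattern with parts of sizes
`w, …, w, 2, O(r)`, and is therefore of size `O(n ^ D ((r + 1) / n) ^ η)`.
-/

namespace Pool.Agent.Results.MP_4d52ff_nt.EveryDepthProportion

/-- the multiple zeta value `ζ(k_1, …, k_D) = ∑_{n_1 > ⋯ > n_D ≥ 1} n_1 ^ (-k_1) ⋯ n_D ^ (-k_D)` -/
noncomputable def zeta {D : ℕ} (k : Fin D → ℕ) : ℝ :=
  ∑' n : {n : Fin D → ℕ // StrictAnti n ∧ ∀ i, 1 ≤ n i}, ∏ i, (((n.1 i : ℕ) : ℝ) ^ k i)⁻¹

/-- the indices of depth `D` with entries between `2` and `2 n + 1`, exactly `q` of them odd -/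
def indices (D q n : ℕ) : Finset (Fin D → ℕ) :=
  (Fintype.piFinset fun _ => Finset.Icc 2 (2 * n + 1)).filter fun k => (Finset.univ.filter fun i => Odd (k i)).card = q

open Classical in
theorem result (D : ℕ) (hD : 2 ≤ D) (q : ℕ) :
    ∃ C η : ℝ, 0 < η ∧ ∀ (L : Subfield ℝ), Transcendental L Real.pi → ∀ (E : Submodule L ℝ) (r : ℕ),
      Module.rank L E ≤ (r : Cardinal) → ∀ n : ℕ,
      ((indices D q n).card : ℝ) / D.factorial * (1 - C * (((r : ℝ) + 1) / n) ^ η) ≤
        (((indices D q n).filter fun k => zeta k ∉ E).card : ℝ) :=
  Pool.Agent.H491.All.main D hD q

end Pool.Agent.Results.MP_4d52ff_nt.EveryDepthProportion
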