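import Mathlib
import Pool.Agent.H491.Sq3

set_option autoImplicit false

/-!
# At least half of the double zeta values with two odd arguments are transcendental

The question asks in particular whether a double zeta value `ζ(x, y)` can be rational (a relation between the weights `0` and
`x + y`). If both arguments are odd nothing of this kind was known, not even infinitely many transcendental values.
Let `L` be a subfield of `ℝ` over which `π` is transcendental, for example the field of the real algebraic numbers.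

(1) Let `a, b, c, d ≥ 3` be odd, `a ≠ d` and `b ≠ c`. At least one of the eight numbers `ζ(a, b)`, `ζ(b, a)`, `ζ(c, d)`,
`ζ(d, c)`, `ζ(a, c)`, `ζ(c, a)`, `ζ(b, d)`, `ζ(d, b)` is not in `L`. For example (`a = b`, `c = d`) one of the four numbers
`ζ(3, 3)`, `ζ(5, 5)`, `ζ(3, 5)`, `ζ(5, 3)` is transcendental.

(2) Let `E` be a subspace of `ℝ` of dimension at most `r` over `L`. At least `(n ^ 2 - n - √((2 r + 1) n ^ 3)) / 2` of the
`n ^ 2` numbers `ζ(x, y)`, `x, y ∈ {3, 5, …, 2 n + 1}`, are not in `E`: at least half of them asymptotically, as long as the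
dimension of `E` is small compared with `n`.

Proof. Put `x_a = ζ(a)` for odd `a` and `ζ(2 m) = ρ_m π ^ (2 m)`, `ρ_m` rational. If `ζ(a, b)` and `ζ(b, a)` are in `E` then
`x_a x_b - ζ(a + b)` is in `E`. (1) `(x_a x_b) (x_c x_d) = (x_a x_c) (x_b x_d)` is an identity between polynomials in `π ^ 2`
over `L`, if all eight numbers are in `L`; comparing the leading coefficients one gets
`ζ(a + b) ζ(c + d) = ζ(a + c) ζ(b + d)`, which contradicts the strict convexity of the sequence. (2) Let `a ≠ e`, and let `B`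
be the set of the odd `b` such that the pairs `a, b` and `e, b` are bad (both values are in `E`). Eliminating `x_b` one gets
`ζ(a + b) x_e - ζ(e + b) x_a ∈ x_a E + x_e E`, a space of dimension at most `2 r`. The numbers on the left are
`π ^ b (ρ X - ρ' Y)` with fixed `X, Y`; a determinant of relations with different leading terms shows that at most one of
them can be removed to make them linearly independent over `L`. So `B` has at most `2 r + 1` elements, and the number of bad
pairs is bounded by counting the triples `a, e, b`.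
-/

namespace Pool.Agent.Results.MP_4d52ff_nt.OddDoubleZetas

/-- the multiple zeta value `ζ(k_1, …, k_D) = ∑_{n_1 > ⋯ > n_D ≥ 1} n_1 ^ (-k_1) ⋯ n_D ^ (-k_D)` -/
noncomputable def zeta {D : ℕ} (k : Fin D → ℕ) : ℝ :=
  ∑' n : {n : Fin D → ℕ // StrictAnti n ∧ ∀ i, 1 ≤ n i}, ∏ i, (((n.1 i : ℕ) : ℝ) ^ k i)⁻¹

/-- the odd numbers `3, 5, …, 2 n + 1` -/
def odds (n : ℕ) : Finset ℕ := (Finset.Icc 3 (2 * n + 1)).filter Odd

open Pool.Agent.H491

theorem al_mem {L : Subfield ℝ} (E : Submodule L ℝ) (i j : ℕ)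
    (h1 : zeta ![2 * i + 3, 2 * j + 3] ∈ E) (h2 : zeta ![2 * j + 3, 2 * i + 3] ∈ E) : Sq.al i j ∈ E := by
  by_contra h
  have e : 2 * (i + j + 3) = (2 * i + 3) + (2 * j + 3) := by ring
  rw [Sq.al, e] at h
  rcases Sq.mem_of_pair E (2 * i + 3) (2 * j + 3) (by omega) (by omega) h with h | h
  · exact h h1
  · exact h h2

theorem al_mem' {L : Subfield ℝ} (i j : ℕ)
    (h1 : zeta ![2 * i + 3, 2 * j + 3] ∈ L) (h2 : zeta ![2 * j + 3, 2 * i + 3] ∈ L) : Sq.al i j ∈ L := by
  have e : 2 * (i + j + 3) = (2 * i + 3) + (2 * j + 3) := by ring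
  have h := Sq.z_mul (2 * i + 3) (2 * j + 3) (by omega) (by omega)
  have h3 : Sq.al i j = zeta ![2 * i + 3, 2 * j + 3] + zeta ![2 * j + 3, 2 * i + 3] := by
    rw [Sq.al, e, h]
    change Sq.zt _ + Sq.zt _ + _ - _ = Sq.zt _ + Sq.zt _
    ring
  rw [h3]
  exact L.add_mem h1 h2

open Classical in
theorem result (L : Subfield ℝ) (hL : Transcendental L Real.pi) :
    (∀ a b c d : ℕ, 3 ≤ a → 3 ≤ b → 3 ≤ c → 3 ≤ d → Odd a → Odd b → Odd c → Odd d → a ≠ d → b ≠ c →
      zeta ![a, b] ∉ L ∨ zeta ![b, a] ∉ L ∨ zeta ![c, d] ∉ L ∨ zeta ![d, c] ∉ L ∨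
      zeta ![a, c] ∉ L ∨ zeta ![c, a] ∉ L ∨ zeta ![b, d] ∉ L ∨ zeta ![d, b] ∉ L) ∧
    ∀ (E : Submodule L ℝ) (r : ℕ), Module.rank L E ≤ r → ∀ n : ℕ,
      (n : ℝ) ^ 2 - n - √((2 * r + 1) * (n : ℝ) ^ 3) ≤
        2 * (((odds n ×ˢ odds n).filter fun p : ℕ × ℕ => zeta ![p.1, p.2] ∉ E).card : ℝ) := by
  constructor
  · intro a b c d ha hb hc hd oa ob oc od had hbc
    by_contra hcon
    push Not at hcon
    obtain ⟨h1, h2, h3, h4, h5, h6, h7, h8⟩ := hcon
    obtain ⟨a', rfl⟩ := oa
    obtain ⟨b', rfl⟩ := ob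
    obtain ⟨c', rfl⟩ := oc
    obtain ⟨d', rfl⟩ := od
    obtain ⟨a, rfl⟩ := Nat.exists_eq_add_of_le' (show 1 ≤ a' by omega)
    obtain ⟨b, rfl⟩ := Nat.exists_eq_add_of_le' (show 1 ≤ b' by omega)
    obtain ⟨c, rfl⟩ := Nat.exists_eq_add_of_le' (show 1 ≤ c' by omega)
    obtain ⟨d, rfl⟩ := Nat.exists_eq_add_of_le' (show 1 ≤ d' by omega)
    exact Sq.odd_square hL a b c d (by omega) (by omega) (al_mem' a b h1 h2) (al_mem' c d h3 h4) (al_mem' a c h5 h6)
      (al_mem' b d h7 h8)
  · intro E r hE n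
    set S := (Finset.range n ×ˢ Finset.range n).filter fun p : ℕ × ℕ => Sq.al p.1 p.2 ∈ E with hS
    set G := (Finset.range n ×ˢ Finset.range n).filter fun p : ℕ × ℕ => zeta ![2 * p.1 + 3, 2 * p.2 + 3] ∉ E with hG
    have h1 := Sq.odd_count hL E r hE n S (Finset.filter_subset _ _) (fun p hp => (Finset.mem_filter.1 hp).2)
    have h2 : (Finset.range n ×ˢ Finset.range n) ⊆ S ∪ (G ∪ G.image Prod.swap) := by
      intro p hp
      rw [Finset.mem_union, Finset.mem_union]
      by_contra hcon
      push Not at hcon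
      obtain ⟨h3, h4, h5⟩ := hcon
      apply h3
      rw [hS, Finset.mem_filter]
      refine ⟨hp, al_mem E _ _ ?_ ?_⟩
      · by_contra h6
        exact h4 (Finset.mem_filter.2 ⟨hp, h6⟩)
      · by_contra h6
        apply h5
        rw [Finset.mem_image]
        refine ⟨p.swap, Finset.mem_filter.2 ⟨?_, h6⟩, Prod.swap_swap p⟩
        rw [Finset.mem_product] at hp ⊢
        exact ⟨hp.2, hp.1⟩
    have h3 : n ^ 2 ≤ S.card + 2 * G.card := by
      have h4 := Finset.card_le_card h2
      rw [Finset.card_product, Finset.card_range] at h4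
      have h5 := Finset.card_union_le S (G ∪ G.image Prod.swap)
      have h6 := Finset.card_union_le G (G.image Prod.swap)
      have h7 := Finset.card_image_le (s := G) (f := Prod.swap)
      rw [sq]
      omega
    have h4 : G.card ≤ ((odds n ×ˢ odds n).filter fun p : ℕ × ℕ => zeta ![p.1, p.2] ∉ E).card := by
      apply Finset.card_le_card_of_injOn (fun p => (2 * p.1 + 3, 2 * p.2 + 3))
      · intro p hp
        rw [Finset.mem_coe, hG, Finset.mem_filter, Finset.mem_product, Finset.mem_range, Finset.mem_range] at hp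
        rw [Finset.mem_coe, Finset.mem_filter, Finset.mem_product, odds, Finset.mem_filter, Finset.mem_filter,
          Finset.mem_Icc, Finset.mem_Icc]
        refine ⟨⟨⟨by simp only; omega, ⟨p.1 + 1, by simp only; ring⟩⟩, ⟨by simp only; omega, ⟨p.2 + 1, by simp only; ring⟩⟩⟩,
          hp.2⟩
      · intro p _ q _ h
        simp only [Prod.mk.injEq] at h
        exact Prod.ext (by omega) (by omega)
    have h5 : (n : ℝ) ^ 2 ≤ S.card + 2 * G.card := by exact_mod_cast h3
    have h6 : (G.card : ℝ) ≤ ((odds n ×ˢ odds n).filter fun p : ℕ × ℕ => zeta ![p.1, p.2] ∉ E).card := by exact_mod_cast h4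
    linarith

end Pool.Agent.Results.MP_4d52ff_nt.OddDoubleZetas
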