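import Mathlib
import Pool.Agent.H491.Win
import Pool.Agent.H491.Conv

set_option autoImplicit false

/-!
# A space of dimension `e` contains few multiple zeta values, except in `e` weights of each parity

Let `E` be a space of real numbers of dimension at most `e` over the field of the real algebraic numbers (for example the
space of all real algebraic numbers, `e = 1`, or the span of `e` multiple zeta values of any weights). Let `N_k` be the
number of indices of weight `k` (there are `2 ^ (k - 2)` of them) whose multiple zeta value is not in `E`. For all `k ≥ 2`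
and all distinct positive integers `a_1, …, a_e`

`2 ^ (k - 2) ≤ N_k + ∑_i ⌊(k + 2 a_i) / (2 a_i)⌋ N_{k + 2 a_i}`.

So among any `e + 1` weights of the same parity there is one in which `E` misses an inverse polynomial part of the number
`2 ^ (k - 2)`, where `k` is the smallest of them: for all weights of one parity in an interval `[K, K + h]`, with at most
`e` exceptions, `N_k ≥ 2 ^ (K - 2) / ((e + 1) (K + h))`. All constants are explicit and nothing is assumed.

Proof. Let `u` be an index of weight `k`. The numbers `ζ(u)` and `ζ(u) ζ(2 a_i)`, rational multiples of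
`ζ(u) π ^ (2 a_i)`, are linearly independent over the real algebraic numbers, as `π` is transcendental. So one of them is
not in `E`. By the stuffle product `ζ(u) ζ(2 a_i)` is a sum of multiple zeta values of weight `k + 2 a_i` with indices from
which one gets `u` by subtracting `2 a_i` from one entry, and there are at most `⌊(k + 2 a_i) / (2 a_i)⌋` such entries.
-/

namespace Pool.Agent.Results.MP_4d52ff_nt.ParityWindows

/-- the field of the real algebraic numbers -/
noncomputable abbrev RealAlg : IntermediateField ℚ ℝ := algebraicClosure ℚ ℝ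

/-- the indices `(k_1, …, k_t)` of weight `k` with `k_i ≥ 1` and `k_1 ≥ 2` -/
def Index (k : ℕ) : Set (List ℕ) := {s | (∀ a ∈ s, 1 ≤ a) ∧ (∀ a ∈ s.head?, 2 ≤ a) ∧ s.sum = k}

/-- the multiple zeta value `ζ(k_1, …, k_t) = ∑_{n_1 > ⋯ > n_t ≥ 1} n_1 ^ (-k_1) ⋯ n_t ^ (-k_t)` -/
noncomputable def zeta (s : List ℕ) : ℝ :=
  ∑' n : {n : Fin s.length → ℕ // StrictAnti n ∧ ∀ i, 1 ≤ n i}, ∏ i, (((n.1 i : ℕ) : ℝ) ^ s.get i)⁻¹

/-- the number of the indices of weight `k` whose multiple zeta value is not in `E` -/
noncomputable def missed (E : Submodule RealAlg ℝ) (k : ℕ) : ℕ := {s ∈ Index k | zeta s ∉ E}.ncard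

open Pool.Agent.H447R2.MZ Pool.Agent.H491

theorem index_iff (k : ℕ) (s : List ℕ) : s ∈ Index k ↔ Adm s ∧ s.sum = k := by
  constructor
  · rintro ⟨h1, h2, h3⟩
    refine ⟨⟨h1, fun a t e => h2 a ?_⟩, h3⟩
    rw [e]
    rfl
  · rintro ⟨⟨h1, h2⟩, h3⟩
    refine ⟨h1, fun a ha => ?_, h3⟩
    rcases s with _ | ⟨b, t⟩
    · simp at ha
    · simp only [List.head?_cons, Option.mem_def, Option.some.injEq] at ha
      subst ha
      exact h2 b t rfl

theorem zeta_eq (s : List ℕ) (hs : Adm s) : zeta s = val s := (Hit.val_eq_tsum_anti s hs).symm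

theorem missed_eq (E : Submodule RealAlg ℝ) (k : ℕ) : missed E k = (Hit.outside k E).card := by
  have e1 : {s ∈ Index k | zeta s ∉ E} = ↑(Hit.outside k E) := by
    ext s
    rw [Finset.mem_coe, Hit.mem_outside, Set.mem_sep_iff, index_iff]
    refine and_congr_right fun h2 => ?_
    rw [zeta_eq s h2.1]
  rw [missed, e1, Set.ncard_coe_finset]

theorem result (e : ℕ) (E : Submodule RealAlg ℝ) (hE : Module.rank RealAlg E ≤ e) (k : ℕ) (hk : 2 ≤ k)
    (a : Fin e → ℕ) (ha : Function.Injective a) (ha1 : ∀ i, 1 ≤ a i) :
    2 ^ (k - 2) ≤ missed E k + ∑ i, (k + 2 * a i) / (2 * a i) * missed E (k + 2 * a i) := by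
  simp only [missed_eq]
  exact (Hit.card_W k hk).trans (Hit.window e E hE k a ha ha1)

end Pool.Agent.Results.MP_4d52ff_nt.ParityWindows
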